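import Mathlib

/-!
# Statistical algorithms for random satisfiability

The definitions used by the statement of the lower bound.
-/

set_option autoImplicit false

namespace Pool.Agent.Y639.SQ

/-- clauses with `w` literals (repetitions are allowed) over `n` variables; the literal `(v, b)` is
true at the assignment `z` iff `z v = b` -/
abbrev WClause (n w : ℕ) := Fin w → Fin n × Bool

/-- the assignment `z` satisfies the clause `C` -/
def Satisfies {n w : ℕ} (z : Fin n → Bool) (C : WClause n w) : Prop := ∃ j, z (C j).1 = (C j).2

open Classical in
/-- the expected value of `h` for a uniformly random clause with the property `D` -/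
noncomputable def mean {n w : ℕ} (D : WClause n w → Prop) (h : WClause n w → ℝ) : ℝ :=
  (∑ C with D C, h C) / (Finset.univ.filter D).card

/-- The answers `l` which the statistical oracle `VSTAT(M)` for the uniform distribution on the
clauses with the property `D` may give to the adaptive queries `ask [], ask [a₀], ask [a₀, a₁], ...`:
the answer `a` to a query with the expected value `p` satisfies
`|a - p| ≤ max (1 / M) (√(p (1 - p) / M))`. -/
inductive Answers {n w : ℕ} (M : ℝ) (D : WClause n w → Prop) (ask : List ℝ → WClause n w → ℝ) :
    List ℝ → Prop
  | nil : Answers M D ask []
  | snoc (l : List ℝ) (a : ℝ) : Answers M D ask l →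
      |a - mean D (ask l)| ≤
        max (1 / M) (Real.sqrt (mean D (ask l) * (1 - mean D (ask l)) / M)) →
      Answers M D ask (l ++ [a])

end Pool.Agent.Y639.SQ
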