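import Mathlib
import Pool.Agent.Y639.SQ.Defs

/-!
Counting clauses and assignments.
-/

set_option autoImplicit false

namespace Pool.Agent.Y639.SQ

open Finset

variable {n w : ℕ}

lemma card_univ_clause : (univ : Finset (WClause n w)).card = (2 * n) ^ w := by
  rw [card_univ, Fintype.card_fun, Fintype.card_prod, Fintype.card_bool, Fintype.card_fin,
    Fintype.card_fin, mul_comm]

open Classical in
/-- clauses which are falsified by two assignments -/
lemma card_both (z z' : Fin n → Bool) :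
    (univ.filter fun C : WClause n w => ¬ Satisfies z C ∧ ¬ Satisfies z' C).card
      = (n - hammingDist z z') ^ w := by
  have h1 : (univ.filter fun C : WClause n w => ¬ Satisfies z C ∧ ¬ Satisfies z' C)
      = Fintype.piFinset fun _ : Fin w =>
        (univ.filter fun l : Fin n × Bool => z l.1 ≠ l.2 ∧ z' l.1 ≠ l.2) := by
    ext C
    simp only [mem_filter, mem_univ, true_and, Fintype.mem_piFinset, Satisfies, not_exists]
    constructor
    · rintro ⟨h1, h2⟩ j
      exact ⟨h1 j, h2 j⟩
    · intro h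
      exact ⟨fun j => (h j).1, fun j => (h j).2⟩
  rw [h1, Fintype.card_piFinset, prod_const, card_univ, Fintype.card_fin]
  congr 1
  have h2 : (univ.filter fun l : Fin n × Bool => z l.1 ≠ l.2 ∧ z' l.1 ≠ l.2)
      = (univ.filter fun v : Fin n => z v = z' v).image fun v => (v, !z v) := by
    ext ⟨v, b⟩
    simp only [mem_filter, mem_univ, true_and, mem_image, Prod.mk.injEq]
    constructor
    · rintro ⟨h1, h2⟩
      refine ⟨v, ?_, rfl, ?_⟩
      · revert h1 h2
        cases z v <;> cases z' v <;> cases b <;> simp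
      · revert h1
        cases z v <;> cases b <;> simp
    · rintro ⟨v', h1, rfl, h2⟩
      rw [← h2, ← h1]
      cases z v' <;> simp
  rw [h2, card_image_of_injective _ (fun a b h => (Prod.mk.inj h).1)]
  have h3 := card_filter_add_card_filter_not (s := (univ : Finset (Fin n)))
    (fun v => z v = z' v)
  rw [card_univ, Fintype.card_fin] at h3
  unfold hammingDist
  have h4 : (univ.filter fun v : Fin n => ¬ z v = z' v) = univ.filter fun v => z v ≠ z' v := rfl
  rw [h4] at h3
  omega

open Classical in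
lemma card_falsified (z : Fin n → Bool) :
    (univ.filter fun C : WClause n w => ¬ Satisfies z C).card = n ^ w := by
  have h := card_both (w := w) z z
  simp only [and_self, hammingDist_self, Nat.sub_zero] at h
  exact h

open Classical in
/-- the basic inequality -/
lemma sum_falsified_le (h : WClause n w → ℝ) (h0 : ∀ C, 0 ≤ h C) (h1 : ∀ C, h C ≤ 1)
    (S : Finset (Fin n → Bool)) (a : ℕ)
    (hS : ∀ z ∈ S, ∀ z' ∈ S, z ≠ z' → n - hammingDist z z' ≤ a) :
    ∑ z ∈ S, ∑ C with ¬ Satisfies z C, h C ≤ ∑ C, h C + (S.card : ℝ) ^ 2 * (a : ℝ) ^ w := by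
  have e1 : ∑ z ∈ S, ∑ C with ¬ Satisfies z C, h C
      = ∑ C, ((S.filter fun z => ¬ Satisfies z C).card : ℝ) * h C := by
    simp_rw [sum_filter]
    rw [sum_comm]
    apply sum_congr rfl
    intro C _
    rw [card_filter]
    push_cast
    rw [sum_mul]
    apply sum_congr rfl
    intro z _
    split_ifs <;> simp
  rw [e1]
  have e2 : ∀ C : WClause n w, ((S.filter fun z => ¬ Satisfies z C).card : ℝ) * h C ≤
      h C + ∑ p ∈ S.offDiag, (if ¬ Satisfies p.1 C ∧ ¬ Satisfies p.2 C then (1 : ℝ) else 0) := by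
    intro C
    have e3 : ∑ p ∈ S.offDiag, (if ¬ Satisfies p.1 C ∧ ¬ Satisfies p.2 C then (1 : ℝ) else 0)
        = ((S.filter fun z => ¬ Satisfies z C).offDiag.card : ℝ) := by
      rw [← Finset.sum_filter, sum_const, nsmul_eq_mul, mul_one]
      congr 2
      ext p
      simp only [mem_filter, mem_offDiag]
      tauto
    rw [e3, offDiag_card]
    obtain ⟨m, hm⟩ : ∃ m, m = (S.filter fun z => ¬ Satisfies z C).card := ⟨_, rfl⟩
    rw [← hm]
    rcases Nat.eq_zero_or_pos m with h4 | h4
    · subst h4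
      simp [h0 C]
    · have h5 : m ≤ m * m := Nat.le_mul_self m
      rw [Nat.cast_sub h5]
      push_cast
      have h6 : (1 : ℝ) ≤ m := by exact_mod_cast h4
      have h7 := h0 C
      have h8 := h1 C
      nlinarith [mul_nonneg (sub_nonneg.2 h6) (sub_nonneg.2 h8),
        mul_nonneg (sub_nonneg.2 h6) (sub_nonneg.2 h6)]
  refine (sum_le_sum fun C _ => e2 C).trans ?_
  rw [sum_add_distrib]
  apply add_le_add le_rfl
  rw [sum_comm]
  have e4 : ∀ p ∈ S.offDiag, ∑ C : WClause n w,
      (if ¬ Satisfies p.1 C ∧ ¬ Satisfies p.2 C then (1 : ℝ) else 0) ≤ (a : ℝ) ^ w := by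
    intro p hp
    rw [mem_offDiag] at hp
    rw [← Finset.sum_filter, sum_const, nsmul_eq_mul, mul_one, card_both]
    exact_mod_cast Nat.pow_le_pow_left (hS _ hp.1 _ hp.2.1 hp.2.2) w
  refine (sum_le_sum e4).trans ?_
  rw [sum_const, nsmul_eq_mul, offDiag_card]
  apply mul_le_mul_of_nonneg_right _ (by positivity)
  have : S.card * S.card - S.card ≤ S.card ^ 2 := by rw [sq]; omega
  exact_mod_cast this

open Classical in
/-- separated sets -/
lemma exists_separated {X : Type} [Fintype X] [DecidableEq X] (r : X → X → Prop) (B : ℕ)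
    (hr : ∀ x, (univ.filter fun y => r x y).card ≤ B) (t : ℕ) :
    ∀ G : Finset X, t * B < G.card → (∀ x, r x x) → (∀ x y, r x y → r y x) →
      ∃ S ⊆ G, S.card = t ∧ ∀ x ∈ S, ∀ y ∈ S, x ≠ y → ¬ r x y := by
  induction t with
  | zero =>
    intro G _ _ _
    exact ⟨∅, empty_subset _, rfl, by simp⟩
  | succ t ih =>
    intro G hG hrefl hsymm
    obtain ⟨x, hx⟩ : G.Nonempty := card_pos.1 (by omega)
    obtain ⟨S, hS1, hS2, hS3⟩ := ih (G.filter fun y => ¬ r x y) (by
      have h1 := card_filter_add_card_filter_not (s := G) (fun y => r x y)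
      have h2 : (G.filter fun y => r x y).card ≤ B :=
        (card_le_card (filter_subset_filter _ (subset_univ G))).trans (hr x)
      rw [Nat.succ_mul] at hG
      omega) hrefl hsymm
    have hxS : x ∉ S := by
      intro h
      exact (mem_filter.1 (hS1 h)).2 (hrefl x)
    refine ⟨insert x S, ?_, ?_, ?_⟩
    · intro y hy
      rcases mem_insert.1 hy with rfl | hy
      · exact hx
      · exact (mem_filter.1 (hS1 hy)).1
    · rw [card_insert_of_notMem hxS, hS2]
    · intro y hy z hz hyz
      rcases mem_insert.1 hy with hy' | hy' <;> rcases mem_insert.1 hz with hz' | hz'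
      · exact absurd (hy'.trans hz'.symm) hyz
      · rw [hy']
        exact (mem_filter.1 (hS1 hz')).2
      · intro h
        rw [hz'] at h
        exact (mem_filter.1 (hS1 hy')).2 (hsymm _ _ h)
      · exact hS3 y hy' z hz' hyz

/-- the analytic part -/
lemma analytic {W y M p g q : ℝ} (hy : 256 ≤ y) (hW : y ^ 4 ≤ W) (hM0 : 0 < M) (hM : M ≤ W * y)
    (hp0 : 0 ≤ p) (hp1 : p ≤ 1) (hg0 : 0 ≤ g) (hg1 : g ≤ 1) (hq0 : 0 ≤ q) (hq1 : q ≤ 1)
    (hq : q - p = (p - g) / (W - 1))
    (hnot : ¬ |p - q| ≤ max (1 / M) (Real.sqrt (q * (1 - q) / M))) :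
    (p ≤ 10 * y / W ∧ 1 / (2 * y) ≤ g) ∨ (1 - p ≤ 10 * y / W ∧ 1 / (2 * y) ≤ 1 - g) := by
  have hy0 : (0 : ℝ) < y := by linarith
  have hy4 : (256 : ℝ) ^ 3 * y ≤ y ^ 4 := by
    have : (256 : ℝ) ^ 3 ≤ y ^ 3 := pow_le_pow_left₀ (by norm_num) hy 3
    nlinarith
  have hWbig : (256 : ℝ) ^ 4 ≤ W := by nlinarith
  have hW0 : (0 : ℝ) < W := by linarith
  have hW1 : (0 : ℝ) < W - 1 := by linarith
  rw [not_le, max_lt_iff] at hnot
  obtain ⟨h1, h2⟩ := hnot
  have hx0 : 0 ≤ q * (1 - q) / M := div_nonneg (mul_nonneg hq0 (by linarith)) hM0.le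
  have hd : |p - q| = |p - g| / (W - 1) := by
    rw [abs_sub_comm p q, hq, abs_div, abs_of_pos hW1]
  have hdW : ∀ c : ℝ, 0 ≤ c → c / (W - 1) ≤ 2 * c / W := by
    intro c hc
    rw [div_le_div_iff₀ hW1 hW0]
    nlinarith
  have hdle : |p - q| ≤ 2 / W := by
    rw [hd]
    have h3 : |p - g| ≤ 1 := by rw [abs_le]; constructor <;> linarith
    refine (hdW _ (abs_nonneg _)).trans ?_
    apply div_le_div_of_nonneg_right _ hW0.le
    linarith
  have h3 : q * (1 - q) / M < |p - q| ^ 2 := (Real.sqrt_lt' (by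
    have : 0 < 1 / M := by positivity
    linarith)).1 h2
  have h4 : q * (1 - q) < 4 * y / W := by
    have h5 : |p - q| ^ 2 ≤ (2 / W) ^ 2 := pow_le_pow_left₀ (abs_nonneg _) hdle 2
    have h6 : q * (1 - q) < (2 / W) ^ 2 * M := by
      rw [div_lt_iff₀ hM0] at h3
      refine lt_of_lt_of_le h3 (mul_le_mul_of_nonneg_right h5 hM0.le)
    refine lt_of_lt_of_le h6 ?_
    calc (2 / W) ^ 2 * M ≤ (2 / W) ^ 2 * (W * y) := mul_le_mul_of_nonneg_left hM (by positivity)
      _ = 4 * y / W := by field_simp; norm_num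
  have hinv : 1 / (W * y) < |p - q| :=
    lt_of_le_of_lt (one_div_le_one_div_of_le hM0 hM) h1
  -- the key step
  have key : ∀ p' g' : ℝ, 0 ≤ p' → 0 ≤ g' → |p - q| = |p' - g'| / (W - 1) → p' ≤ 10 * y / W →
      1 / (2 * y) ≤ g' := by
    intro p' g' hp' hg' he hle
    have hgp : p' < g' := by
      by_contra hcon
      push Not at hcon
      rw [abs_of_nonneg (show 0 ≤ p' - g' by linarith)] at he
      have h5 : |p - q| ≤ 2 * (10 * y / W) / W := by
        rw [he]
        refine (hdW _ (by linarith)).trans ?_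
        apply div_le_div_of_nonneg_right _ hW0.le
        linarith
      have h6 : 1 / (W * y) < 2 * (10 * y / W) / W := lt_of_lt_of_le hinv h5
      rw [div_lt_div_iff₀ (by positivity) hW0] at h6
      have h7 : 2 * (10 * y / W) * (W * y) = 20 * y ^ 2 := by field_simp; ring
      rw [h7] at h6
      have h8 : 20 * y ^ 2 ≤ y ^ 4 := by nlinarith
      linarith
    rw [abs_of_neg (show p' - g' < 0 by linarith)] at he
    have h5 : |p - q| ≤ 2 * g' / W := by
      rw [he]
      refine (hdW _ (by linarith)).trans ?_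
      apply div_le_div_of_nonneg_right _ hW0.le
      linarith
    have h6 : 1 / (W * y) < 2 * g' / W := lt_of_lt_of_le hinv h5
    rw [div_lt_div_iff₀ (by positivity) hW0] at h6
    rw [div_le_iff₀ (by positivity)]
    have h7 : 2 * g' * (W * y) = W * (g' * (2 * y)) := by ring
    rw [h7] at h6
    have h8 : W * 1 < W * (g' * (2 * y)) := by linarith
    exact (lt_of_mul_lt_mul_left h8 hW0.le).le
  have hWy : 2 / W + 8 * y / W ≤ 10 * y / W := by
    rw [← add_div]
    apply div_le_div_of_nonneg_right _ hW0.le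
    linarith
  have hab := abs_le.1 hdle
  rcases le_total q (1 / 2) with hq2 | hq2
  · left
    have h5 : q ≤ 8 * y / W := by
      have h6 : q / 2 ≤ q * (1 - q) := by nlinarith
      have h7 : 8 * y / W = 2 * (4 * y / W) := by ring
      linarith
    have h8 : p ≤ 10 * y / W := by linarith
    exact ⟨h8, key p g hp0 hg0 hd h8⟩
  · right
    have h5 : 1 - q ≤ 8 * y / W := by
      have h6 : (1 - q) / 2 ≤ q * (1 - q) := by nlinarith
      have h7 : 8 * y / W = 2 * (4 * y / W) := by ring
      linarith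
    have h8 : 1 - p ≤ 10 * y / W := by linarith
    refine ⟨h8, key (1 - p) (1 - g) (by linarith) (by linarith) ?_ h8⟩
    rw [hd]
    congr 1
    rw [show (1 - p) - (1 - g) = -(p - g) by ring, abs_neg]

end Pool.Agent.Y639.SQ
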