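import Mathlib
import Pool.Agent.Y639.SQ.Count
import Pool.Agent.W970.Tri.Core

/-!
The lower bound for statistical algorithms.
-/

set_option autoImplicit false

namespace Pool.Agent.Y639.SQ

open Finset

variable {n w : ℕ}

open Classical in
lemma mean_true (h : WClause n w → ℝ) :
    mean (fun _ => True) h = (∑ C, h C) / ((2 : ℝ) ^ w * (n : ℝ) ^ w) := by
  unfold mean
  have e : ∀ inst : DecidablePred (fun _ : WClause n w => True),
      @Finset.filter _ (fun _ => True) inst univ = univ := by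
    intro inst; ext; simp
  rw [e, card_univ_clause, ← mul_pow]
  push_cast
  rfl

open Classical in
lemma mean_sat (h : WClause n w → ℝ) (z : Fin n → Bool) :
    mean (Satisfies z) h = (∑ C, h C - ∑ C with ¬ Satisfies z C, h C) /
      ((2 : ℝ) ^ w * (n : ℝ) ^ w - (n : ℝ) ^ w) := by
  unfold mean
  have h1 := sum_filter_add_sum_filter_not (univ : Finset (WClause n w)) (Satisfies z) h
  have h2 := card_filter_add_card_filter_not (s := (univ : Finset (WClause n w))) (Satisfies z)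
  rw [card_falsified, card_univ_clause] at h2
  have h3 : ((univ.filter (Satisfies (w := w) z)).card : ℝ)
      = (2 : ℝ) ^ w * (n : ℝ) ^ w - (n : ℝ) ^ w := by
    have : (((univ.filter (Satisfies (w := w) z)).card + n ^ w : ℕ) : ℝ)
        = (((2 * n) ^ w : ℕ) : ℝ) := by rw [h2]
    push_cast at this
    rw [mul_pow] at this
    linarith
  rw [h3, ← h1]
  congr 1
  ring

/-- the tolerance -/
noncomputable def tol (M p : ℝ) : ℝ := max (1 / M) (Real.sqrt (p * (1 - p) / M))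

open Classical in
/-- few assignments are falsified often by the clauses of a small set -/
lemma small_set {y : ℝ} (hy : 256 ≤ y) (hn : 0 < n) {ρ B : ℕ}
    (hB : ∀ z : Fin n → Bool, (univ.filter fun z' => hammingDist z z' ≤ ρ).card ≤ B)
    (hρ : ((n - (ρ + 1) : ℕ) : ℝ) ^ w * y ^ 4 ≤ (n : ℝ) ^ w)
    (h : WClause n w → ℝ) (h0 : ∀ C, 0 ≤ h C) (h1 : ∀ C, h C ≤ 1)
    (hs : ∑ C, h C ≤ 10 * y * (n : ℝ) ^ w) :
    (univ.filter fun z : Fin n → Bool =>
      (n : ℝ) ^ w / (2 * y) ≤ ∑ C with ¬ Satisfies z C, h C).card ≤ ⌈40 * y ^ 2⌉₊ * B := by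
  by_contra hcon
  push Not at hcon
  obtain ⟨S, hS1, hS2, hS3⟩ := exists_separated (fun z z' : Fin n → Bool => hammingDist z z' ≤ ρ) B
    (fun z => by convert hB z) _ _ hcon (fun z => by simp)
    (fun z z' hz => by rw [hammingDist_comm]; exact hz)
  have hy0 : (0 : ℝ) < y := by linarith
  have hQ : (0 : ℝ) < (n : ℝ) ^ w := by
    have : (0 : ℝ) < n := by exact_mod_cast hn
    positivity
  have h2 := sum_falsified_le h h0 h1 S (n - (ρ + 1)) (by
    intro z hz z' hz' hne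
    have := hS3 z hz z' hz' hne
    omega)
  have h3 : (S.card : ℝ) * ((n : ℝ) ^ w / (2 * y)) ≤
      ∑ z ∈ S, ∑ C with ¬ Satisfies z C, h C := by
    rw [← nsmul_eq_mul, ← sum_const]
    apply sum_le_sum
    intro z hz
    exact (mem_filter.1 (hS1 hz)).2
  have ht1 : 40 * y ^ 2 ≤ (S.card : ℝ) := by rw [hS2]; exact Nat.le_ceil _
  have ht2 : (S.card : ℝ) ≤ 41 * y ^ 2 := by
    rw [hS2]
    have := (Nat.ceil_lt_add_one (show 0 ≤ 40 * y ^ 2 by positivity)).le
    nlinarith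
  have h4 : 20 * y * (n : ℝ) ^ w ≤ (S.card : ℝ) * ((n : ℝ) ^ w / (2 * y)) := by
    calc 20 * y * (n : ℝ) ^ w = 40 * y ^ 2 * ((n : ℝ) ^ w / (2 * y)) := by field_simp; ring
      _ ≤ _ := mul_le_mul_of_nonneg_right ht1 (by positivity)
  have h5 : (S.card : ℝ) ^ 2 * ((n - (ρ + 1) : ℕ) : ℝ) ^ w ≤ 1681 * (n : ℝ) ^ w := by
    have h6 : (S.card : ℝ) ^ 2 ≤ (41 * y ^ 2) ^ 2 := pow_le_pow_left₀ (by positivity) ht2 2
    calc (S.card : ℝ) ^ 2 * ((n - (ρ + 1) : ℕ) : ℝ) ^ w
        ≤ (41 * y ^ 2) ^ 2 * ((n - (ρ + 1) : ℕ) : ℝ) ^ w :=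
          mul_le_mul_of_nonneg_right h6 (by positivity)
      _ = 1681 * (((n - (ρ + 1) : ℕ) : ℝ) ^ w * y ^ 4) := by ring
      _ ≤ 1681 * (n : ℝ) ^ w := mul_le_mul_of_nonneg_left hρ (by norm_num)
  have h7 : 20 * y * (n : ℝ) ^ w ≤ 10 * y * (n : ℝ) ^ w + 1681 * (n : ℝ) ^ w := by linarith
  have h8 : (20 * y - 10 * y - 1681) * (n : ℝ) ^ w ≤ 0 := by linarith
  have h9 : 0 < (20 * y - 10 * y - 1681) * (n : ℝ) ^ w := mul_pos (by linarith) hQ
  linarith

open Classical in
/-- the two ways in which a query can be useful -/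
lemma split_case {y M : ℝ} (hy : 256 ≤ y) (hW : y ^ 4 ≤ (2 : ℝ) ^ w) (hn : 0 < n)
    (hM0 : 0 < M) (hM : M ≤ (2 : ℝ) ^ w * y)
    (h : WClause n w → ℝ) (h0 : ∀ C, 0 ≤ h C) (h1 : ∀ C, h C ≤ 1) (z : Fin n → Bool)
    (hz : ¬ |mean (fun _ => True) h - mean (Satisfies z) h| ≤ tol M (mean (Satisfies z) h)) :
    (∑ C, h C ≤ 10 * y * (n : ℝ) ^ w ∧
      (n : ℝ) ^ w / (2 * y) ≤ ∑ C with ¬ Satisfies z C, h C) ∨
    (∑ C, (1 - h C) ≤ 10 * y * (n : ℝ) ^ w ∧
      (n : ℝ) ^ w / (2 * y) ≤ ∑ C with ¬ Satisfies z C, (1 - h C)) := by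
  have hy0 : (0 : ℝ) < y := by linarith
  have hQ : (0 : ℝ) < (n : ℝ) ^ w := by
    have : (0 : ℝ) < n := by exact_mod_cast hn
    positivity
  have hy4 : (1 : ℝ) < y ^ 4 := one_lt_pow₀ (by linarith) (by norm_num)
  have hW1 : (1 : ℝ) < (2 : ℝ) ^ w := by linarith
  have hW0 : (0 : ℝ) < (2 : ℝ) ^ w := by linarith
  obtain ⟨W, hWdef⟩ : ∃ W, W = (2 : ℝ) ^ w := ⟨_, rfl⟩
  obtain ⟨Q, hQdef⟩ : ∃ Q, Q = (n : ℝ) ^ w := ⟨_, rfl⟩
  obtain ⟨s, hs⟩ : ∃ s, s = ∑ C, h C := ⟨_, rfl⟩
  obtain ⟨f, hf⟩ : ∃ f, f = ∑ C with ¬ Satisfies z C, h C := ⟨_, rfl⟩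
  have hcardR : ((univ : Finset (WClause n w)).card : ℝ) = W * Q := by
    rw [card_univ_clause, hWdef, hQdef]; push_cast; rw [mul_pow]
  have hcardF : ((univ.filter fun C : WClause n w => ¬ Satisfies z C).card : ℝ) = Q := by
    rw [card_falsified, hQdef]; push_cast; rfl
  have hs0 : 0 ≤ s := by rw [hs]; exact sum_nonneg fun C _ => h0 C
  have hf0 : 0 ≤ f := by rw [hf]; exact sum_nonneg fun C _ => h0 C
  have hs' : ∑ C, (1 - h C) = W * Q - s := by
    rw [sum_sub_distrib, ← hs, ← hcardR]; simp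
  have hf' : ∑ C with ¬ Satisfies z C, (1 - h C) = Q - f := by
    rw [sum_sub_distrib, ← hf, ← hcardF]; simp
  have hs1 : s ≤ W * Q := by
    have : 0 ≤ ∑ C, (1 - h C) := sum_nonneg fun C _ => by linarith [h1 C]
    linarith
  have hf1 : f ≤ Q := by
    have : 0 ≤ ∑ C with ¬ Satisfies z C, (1 - h C) := sum_nonneg fun C _ => by linarith [h1 C]
    linarith
  have hfs : f ≤ s := by
    rw [hf, hs]
    exact sum_le_sum_of_subset_of_nonneg (filter_subset _ _) fun C _ _ => h0 C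
  have hfs' : Q - f ≤ W * Q - s := by
    rw [← hf', ← hs']
    exact sum_le_sum_of_subset_of_nonneg (filter_subset _ _) fun C _ _ => by linarith [h1 C]
  rw [mean_true, mean_sat, ← hs, ← hf, ← hWdef, ← hQdef] at hz
  rw [← hWdef] at hW hM hW1 hW0
  rw [← hQdef] at hQ
  rw [hs', hf', ← hs, ← hf, ← hQdef]
  have hWQ : 0 < W * Q := mul_pos hW0 hQ
  have hden : 0 < W * Q - Q := by
    have : W * Q - Q = (W - 1) * Q := by ring
    rw [this]; exact mul_pos (by linarith) hQ
  have hW1' : W - 1 ≠ 0 := by linarith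
  have key := analytic (W := W) (y := y) (M := M) (p := s / (W * Q)) (g := f / Q)
    (q := (s - f) / (W * Q - Q)) hy hW hM0 hM (by positivity)
    (by rw [div_le_one hWQ]; exact hs1) (by positivity) (by rw [div_le_one hQ]; exact hf1)
    (by apply div_nonneg _ hden.le; linarith)
    (by rw [div_le_one hden]; linarith)
    (by
      have e1 : W * Q - Q = (W - 1) * Q := by ring
      rw [e1]
      field_simp
      ring) hz
  rcases key with ⟨h2, h3⟩ | ⟨h2, h3⟩
  · left
    constructor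
    · rw [div_le_div_iff₀ hWQ hW0] at h2
      have h4 : s * W ≤ (10 * y * Q) * W := by
        calc s * W ≤ 10 * y * (W * Q) := h2
          _ = _ := by ring
      exact le_of_mul_le_mul_right h4 hW0
    · rw [div_le_div_iff₀ (by positivity) hQ] at h3
      rw [div_le_iff₀ (by positivity)]
      linarith
  · right
    constructor
    · have e1 : 1 - s / (W * Q) = (W * Q - s) / (W * Q) := by
        field_simp
      rw [e1, div_le_div_iff₀ hWQ hW0] at h2
      have h4 : (W * Q - s) * W ≤ (10 * y * Q) * W := by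
        calc (W * Q - s) * W ≤ 10 * y * (W * Q) := h2
          _ = _ := by ring
      exact le_of_mul_le_mul_right h4 hW0
    · have e1 : 1 - f / Q = (Q - f) / Q := by field_simp
      rw [e1, div_le_div_iff₀ (by positivity) hQ] at h3
      rw [div_le_iff₀ (by positivity)]
      linarith

open Classical in
/-- A query distinguishes few planted distributions from the uniform distribution. -/
lemma query_count {y M : ℝ} (hy : 256 ≤ y) (hW : y ^ 4 ≤ (2 : ℝ) ^ w) (hn : 0 < n)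
    (hM0 : 0 < M) (hM : M ≤ (2 : ℝ) ^ w * y) {ρ B : ℕ}
    (hB : ∀ z : Fin n → Bool, (univ.filter fun z' => hammingDist z z' ≤ ρ).card ≤ B)
    (hρ : ((n - (ρ + 1) : ℕ) : ℝ) ^ w * y ^ 4 ≤ (n : ℝ) ^ w)
    (h : WClause n w → ℝ) (h0 : ∀ C, 0 ≤ h C) (h1 : ∀ C, h C ≤ 1) :
    (univ.filter fun z : Fin n → Bool =>
      ¬ |mean (fun _ => True) h - mean (Satisfies z) h| ≤ tol M (mean (Satisfies z) h)).card ≤
      2 * (⌈40 * y ^ 2⌉₊ * B) := by
  -- the two sets
  by_cases hcase1 : ∑ C, h C ≤ 10 * y * (n : ℝ) ^ w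
  · by_cases hcase2 : ∑ C, (1 - h C) ≤ 10 * y * (n : ℝ) ^ w
    · refine le_trans (card_le_card (t := (univ.filter fun z : Fin n → Bool =>
          (n : ℝ) ^ w / (2 * y) ≤ ∑ C with ¬ Satisfies z C, h C) ∪
          (univ.filter fun z : Fin n → Bool =>
          (n : ℝ) ^ w / (2 * y) ≤ ∑ C with ¬ Satisfies z C, (1 - h C))) ?_) ?_
      · intro z hz
        rw [mem_filter] at hz
        rw [mem_union, mem_filter, mem_filter]
        rcases split_case hy hW hn hM0 hM h h0 h1 z hz.2 with h5 | h5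
        · exact Or.inl ⟨mem_univ _, h5.2⟩
        · exact Or.inr ⟨mem_univ _, h5.2⟩
      · refine (card_union_le _ _).trans ?_
        have h6 := small_set hy hn hB hρ h h0 h1 hcase1
        have h7 := small_set hy hn hB hρ (fun C => 1 - h C) (fun C => by linarith [h1 C])
          (fun C => by linarith [h0 C]) hcase2
        omega
    · refine le_trans (card_le_card (t := (univ.filter fun z : Fin n → Bool =>
          (n : ℝ) ^ w / (2 * y) ≤ ∑ C with ¬ Satisfies z C, h C)) ?_) ?_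
      · intro z hz
        rw [mem_filter] at hz
        rw [mem_filter]
        rcases split_case hy hW hn hM0 hM h h0 h1 z hz.2 with h5 | h5
        · exact ⟨mem_univ _, h5.2⟩
        · exact absurd h5.1 hcase2
      · have h6 := small_set hy hn hB hρ h h0 h1 hcase1
        omega
  · by_cases hcase2 : ∑ C, (1 - h C) ≤ 10 * y * (n : ℝ) ^ w
    · refine le_trans (card_le_card (t := (univ.filter fun z : Fin n → Bool =>
          (n : ℝ) ^ w / (2 * y) ≤ ∑ C with ¬ Satisfies z C, (1 - h C))) ?_) ?_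
      · intro z hz
        rw [mem_filter] at hz
        rw [mem_filter]
        rcases split_case hy hW hn hM0 hM h h0 h1 z hz.2 with h5 | h5
        · exact absurd h5.1 hcase1
        · exact ⟨mem_univ _, h5.2⟩
      · have h7 := small_set hy hn hB hρ (fun C => 1 - h C) (fun C => by linarith [h1 C])
          (fun C => by linarith [h0 C]) hcase2
        omega
    · rw [filter_false_of_mem]
      · simp
      · intro z _ hz
        rcases split_case hy hW hn hM0 hM h h0 h1 z hz with h5 | h5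
        · exact hcase1 h5.1
        · exact hcase2 h5.1

/-- a bound for the balls -/
lemma ball_card {δ : ℝ} {k R n : ℕ} (hk : (1 : ℝ) + (1 / 2) ^ k ≤ (2 : ℝ) ^ (δ / 8)) (hR : 0 < R)
    (hkR : (k : ℝ) / R ≤ δ / 8) (z : Fin n → Bool) :
    (univ.filter fun z' => hammingDist z z' ≤ n / R).card ≤ ⌊(2 : ℝ) ^ (δ / 4 * n)⌋₊ := by
  apply Nat.le_floor
  have h := Pool.Agent.W970.Tri.ball_le (z := (1 / 2) ^ k) (by positivity)
    (pow_le_one₀ (by norm_num) (by norm_num)) (n / R) z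
  rw [Set.ncard_eq_toFinset_card', Fintype.card_fin] at h
  have e : ({y : Fin n → Bool | hammingDist z y ≤ n / R}).toFinset
      = univ.filter fun z' => hammingDist z z' ≤ n / R := by
    ext y; simp
  rw [e] at h
  have h1 : ((1 : ℝ) + (1 / 2) ^ k) ^ n ≤ (2 : ℝ) ^ (δ / 8 * n) := by
    calc ((1 : ℝ) + (1 / 2) ^ k) ^ n ≤ ((2 : ℝ) ^ (δ / 8)) ^ n :=
          pow_le_pow_left₀ (by positivity) hk _
      _ = (2 : ℝ) ^ (δ / 8 * n) := by
          rw [Real.rpow_mul (by norm_num), Real.rpow_natCast]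
  have h2 : (((1 : ℝ) / 2) ^ k) ^ (n / R) * (2 : ℝ) ^ (k * (n / R)) = 1 := by
    rw [← pow_mul, ← mul_pow]
    norm_num
  have h3 : (2 : ℝ) ^ (k * (n / R)) ≤ (2 : ℝ) ^ (δ / 8 * n) := by
    apply Pool.Agent.W970.Tri.rpow_two_natCast
    have hRpos : (0 : ℝ) < R := by exact_mod_cast hR
    push_cast
    calc (k : ℝ) * ((n / R : ℕ) : ℝ) ≤ k * (n / R) :=
          mul_le_mul_of_nonneg_left Nat.cast_div_le (by positivity)
      _ = (k / R) * n := by ring
      _ ≤ δ / 8 * n := mul_le_mul_of_nonneg_right hkR (by positivity)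
  calc ((univ.filter fun z' => hammingDist z z' ≤ n / R).card : ℝ)
      = (univ.filter fun z' => hammingDist z z' ≤ n / R).card * ((((1 : ℝ) / 2) ^ k) ^ (n / R)) *
        (2 : ℝ) ^ (k * (n / R)) := by rw [mul_assoc, h2, mul_one]
    _ ≤ (2 : ℝ) ^ (δ / 8 * n) * (2 : ℝ) ^ (δ / 8 * n) :=
        mul_le_mul (h.trans h1) h3 (by positivity) (by positivity)
    _ = (2 : ℝ) ^ (δ / 4 * n) := by
        rw [← Real.rpow_add (by norm_num)]
        congr 1
        ring

end Pool.Agent.Y639.SQ
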