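import Mathlib
import Pool.Agent.Y639.SQ.Main

/-!
The lower bound for statistical algorithms: parameters, adaptive queries, upper bound.
-/

set_option autoImplicit false

namespace Pool.Agent.Y639.SQ

open Finset

variable {n w : ℕ}

open Classical in
/-- from single queries to adaptive algorithms -/
lemma adaptive {M E : ℝ}
    (hE : ∀ h : WClause n w → ℝ, (∀ C, 0 ≤ h C) → (∀ C, h C ≤ 1) →
      ((univ.filter fun z : Fin n → Bool => ¬ |mean (fun _ => True) h - mean (Satisfies z) h| ≤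
        tol M (mean (Satisfies z) h)).card : ℝ) ≤ E)
    (ask : List ℝ → WClause n w → ℝ) (hask : ∀ l C, 0 ≤ ask l C ∧ ask l C ≤ 1) (q : ℕ) :
    ∃ l : List ℝ, l.length = q ∧ Answers M (fun _ => True) ask l ∧
      ((univ.filter fun z : Fin n → Bool => ¬ Answers M (Satisfies z) ask l).card : ℝ) ≤
        q * E := by
  induction q with
  | zero =>
    refine ⟨[], rfl, Answers.nil, ?_⟩
    rw [filter_false_of_mem]
    · simp
    · intro z _ hz
      exact hz Answers.nil
  | succ q ih =>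
    obtain ⟨l, h1, h2, h3⟩ := ih
    refine ⟨l ++ [mean (fun _ => True) (ask l)], by simp [h1], ?_, ?_⟩
    · apply Answers.snoc l _ h2
      rw [sub_self, abs_zero]
      exact le_max_of_le_right (Real.sqrt_nonneg _)
    · have h4 := hE (ask l) (fun C => (hask l C).1) (fun C => (hask l C).2)
      have h5 : (univ.filter fun z : Fin n → Bool =>
          ¬ Answers M (Satisfies z) ask (l ++ [mean (fun _ => True) (ask l)])) ⊆
          (univ.filter fun z : Fin n → Bool => ¬ Answers M (Satisfies z) ask l) ∪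
          (univ.filter fun z : Fin n → Bool => ¬ |mean (fun _ => True) (ask l) -
            mean (Satisfies z) (ask l)| ≤ tol M (mean (Satisfies z) (ask l))) := by
        intro z hz
        rw [mem_filter] at hz
        rw [mem_union, mem_filter, mem_filter]
        by_cases h6 : Answers M (Satisfies z) ask l
        · right
          refine ⟨mem_univ _, fun h7 => hz.2 (Answers.snoc l _ h6 h7)⟩
        · exact Or.inl ⟨mem_univ _, h6⟩
      have h6 := (card_le_card h5).trans (card_union_le _ _)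
      have h7 : ((univ.filter fun z : Fin n → Bool =>
          ¬ Answers M (Satisfies z) ask (l ++ [mean (fun _ => True) (ask l)])).card : ℝ) ≤
          ((univ.filter fun z : Fin n → Bool => ¬ Answers M (Satisfies z) ask l).card : ℝ) +
          ((univ.filter fun z : Fin n → Bool => ¬ |mean (fun _ => True) (ask l) -
            mean (Satisfies z) (ask l)| ≤ tol M (mean (Satisfies z) (ask l))).card : ℝ) := by
        exact_mod_cast h6
      push_cast
      linarith

open Classical in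
/-- random formulas with `n 2 ^ w` clauses are unsatisfiable -/
lemma unsat_bound (n w : ℕ) :
    ((univ.filter fun F : Fin (n * 2 ^ w) → WClause n w =>
      ∃ z, ∀ i, Satisfies z (F i)).card : ℝ) ≤
      (2 / Real.exp 1) ^ n * Fintype.card (Fin (n * 2 ^ w) → WClause n w) := by
  obtain ⟨m, hm⟩ : ∃ m, m = n * 2 ^ w := ⟨_, rfl⟩
  rw [← hm]
  have h1 : (univ.filter fun F : Fin m → WClause n w => ∃ z, ∀ i, Satisfies z (F i)) ⊆
      (univ : Finset (Fin n → Bool)).biUnion fun z =>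
        Fintype.piFinset fun _ : Fin m => univ.filter (Satisfies (w := w) z) := by
    intro F hF
    rw [mem_filter] at hF
    obtain ⟨z, hz⟩ := hF.2
    rw [mem_biUnion]
    refine ⟨z, mem_univ _, ?_⟩
    rw [Fintype.mem_piFinset]
    intro i
    rw [mem_filter]
    exact ⟨mem_univ _, hz i⟩
  have h2 : ((univ.filter fun F : Fin m → WClause n w => ∃ z, ∀ i, Satisfies z (F i)).card : ℝ) ≤
      2 ^ n * ((2 : ℝ) ^ w * (n : ℝ) ^ w - (n : ℝ) ^ w) ^ m := by
    have h3 := (card_le_card h1).trans card_biUnion_le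
    have h4 : ∀ z : Fin n → Bool, (Fintype.piFinset fun _ : Fin m =>
        univ.filter (Satisfies (w := w) z)).card = ((2 * n) ^ w - n ^ w) ^ m := by
      intro z
      rw [Fintype.card_piFinset, prod_const, card_univ, Fintype.card_fin]
      congr 1
      have h5 := card_filter_add_card_filter_not (s := (univ : Finset (WClause n w)))
        (Satisfies z)
      rw [card_falsified, card_univ_clause] at h5
      omega
    rw [sum_congr rfl fun z _ => h4 z, sum_const, card_univ, Fintype.card_fun, Fintype.card_bool,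
      Fintype.card_fin, smul_eq_mul] at h3
    have h6 : n ^ w ≤ (2 * n) ^ w := Nat.pow_le_pow_left (by omega) _
    have h7 : ((2 ^ n * ((2 * n) ^ w - n ^ w) ^ m : ℕ) : ℝ) =
        2 ^ n * ((2 : ℝ) ^ w * (n : ℝ) ^ w - (n : ℝ) ^ w) ^ m := by
      push_cast [Nat.cast_sub h6]
      rw [mul_pow]
    rw [← h7]
    exact_mod_cast h3
  refine h2.trans ?_
  have h8 : (Fintype.card (Fin m → WClause n w) : ℝ) = ((2 : ℝ) ^ w * (n : ℝ) ^ w) ^ m := by
    rw [Fintype.card_fun, Fintype.card_fin]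
    have : Fintype.card (WClause n w) = (2 * n) ^ w := by
      rw [← card_univ]; exact card_univ_clause
    rw [this]
    push_cast
    rw [mul_pow]
  rw [h8]
  have hW : (0 : ℝ) < (2 : ℝ) ^ w := by positivity
  have e1 : (2 : ℝ) ^ w * (n : ℝ) ^ w - (n : ℝ) ^ w
      = ((2 : ℝ) ^ w * (n : ℝ) ^ w) * (1 - 1 / (2 : ℝ) ^ w) := by
    field_simp
  rw [e1, mul_pow]
  have h9 : (1 - 1 / (2 : ℝ) ^ w) ^ m ≤ (1 / Real.exp 1) ^ n := by
    have h10 : 1 - 1 / (2 : ℝ) ^ w ≤ Real.exp (-(1 / (2 : ℝ) ^ w)) := by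
      have := Real.add_one_le_exp (-(1 / (2 : ℝ) ^ w))
      linarith
    have h11 : 0 ≤ 1 - 1 / (2 : ℝ) ^ w := by
      rw [sub_nonneg, div_le_one hW]
      exact one_le_pow₀ (by norm_num)
    calc (1 - 1 / (2 : ℝ) ^ w) ^ m ≤ (Real.exp (-(1 / (2 : ℝ) ^ w))) ^ m :=
          pow_le_pow_left₀ h11 h10 _
      _ = Real.exp (-(n : ℝ)) := by
          rw [← Real.exp_nat_mul, hm]
          congr 1
          push_cast
          field_simp
      _ = (1 / Real.exp 1) ^ n := by
          rw [one_div, ← Real.exp_neg, ← Real.exp_nat_mul]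
          congr 1
          ring
  calc 2 ^ n * (((2 : ℝ) ^ w * (n : ℝ) ^ w) ^ m * (1 - 1 / (2 : ℝ) ^ w) ^ m)
      ≤ 2 ^ n * (((2 : ℝ) ^ w * (n : ℝ) ^ w) ^ m * (1 / Real.exp 1) ^ n) := by gcongr
    _ = (2 / Real.exp 1) ^ n * ((2 : ℝ) ^ w * (n : ℝ) ^ w) ^ m := by
        rw [div_pow, div_pow, one_pow]
        ring

open Classical in
/-- the choice of the parameters -/
theorem sq_query (ε : ℝ) (hε : 0 < ε) : ∃ η : ℝ, 0 < η ∧ ∃ c : ℕ, 0 < c ∧ ∀ n w : ℕ,
    c * (Nat.log 2 n + 1) ≤ w → w ≤ n →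
    ∀ h : WClause n w → ℝ, (∀ C, 0 ≤ h C) → (∀ C, h C ≤ 1) →
      ((univ.filter fun z : Fin n → Bool => ¬ |mean (fun _ => True) h - mean (Satisfies z) h| ≤
        tol (((n : ℝ) * 2 ^ w) ^ (1 + η)) (mean (Satisfies z) h)).card : ℝ) ≤
        (2 : ℝ) ^ (ε * n) := by
  obtain ⟨k, hk⟩ := Pool.Agent.W970.Tri.exists_k hε
  obtain ⟨R, hR⟩ := exists_nat_ge (8 * (k : ℝ) / ε + 1)
  have hR1 : (1 : ℝ) ≤ R := by
    have : (0 : ℝ) ≤ 8 * (k : ℝ) / ε := by positivity
    linarith
  have hRpos : 0 < R := by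
    have : 1 ≤ R := by exact_mod_cast hR1
    omega
  have hR0 : (0 : ℝ) < R := by linarith
  have hkR : (k : ℝ) / R ≤ ε / 8 := by
    rw [div_le_iff₀ (by linarith)]
    have : 8 * (k : ℝ) / ε ≤ R := by linarith
    rw [div_le_iff₀ hε] at this
    linarith
  obtain ⟨η₁, hη₁, hη1, hη2, hη3⟩ : ∃ η₁ : ℝ, 0 < η₁ ∧ 4 * η₁ ≤ 1 / R ∧ 8 * η₁ ≤ ε ∧
      4 * η₁ ≤ 1 := by
    refine ⟨min (1 / (4 * R)) (min (ε / 8) (1 / 4)), ?_, ?_, ?_, ?_⟩
    · apply lt_min (by positivity) (lt_min (by positivity) (by norm_num))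
    · have := min_le_left (1 / (4 * (R : ℝ))) (min (ε / 8) (1 / 4))
      calc 4 * min (1 / (4 * (R : ℝ))) (min (ε / 8) (1 / 4)) ≤ 4 * (1 / (4 * R)) := by linarith
        _ = 1 / R := by field_simp
    · have := (min_le_right (1 / (4 * (R : ℝ))) (min (ε / 8) (1 / 4))).trans (min_le_left _ _)
      linarith
    · have := (min_le_right (1 / (4 * (R : ℝ))) (min (ε / 8) (1 / 4))).trans (min_le_right _ _)
      linarith
  obtain ⟨c, hc⟩ := exists_nat_ge (8 / η₁ + 14 / ε + 1)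
  have h8η : 0 < 8 / η₁ := by positivity
  have h14 : 0 < 14 / ε := by positivity
  have hc1 : (8 : ℝ) ≤ η₁ * c := by
    have : 8 / η₁ ≤ c := by linarith
    rw [div_le_iff₀ hη₁] at this
    linarith
  have hc2 : (14 : ℝ) ≤ ε * c := by
    have : 14 / ε ≤ c := by linarith
    rw [div_le_iff₀ hε] at this
    linarith
  have hcpos : 0 < c := by
    have : (0 : ℝ) < c := by linarith
    exact_mod_cast this
  refine ⟨η₁ / 4, by positivity, c, hcpos, ?_⟩
  intro n w hw hwn h h0 h1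
  have hℓ1 : 1 ≤ Nat.log 2 n + 1 := by omega
  have hcw : c ≤ w := by
    calc c = c * 1 := (mul_one c).symm
      _ ≤ c * (Nat.log 2 n + 1) := Nat.mul_le_mul_left _ hℓ1
      _ ≤ w := hw
  have hn : 0 < n := by omega
  have hnR : (0 : ℝ) < n := by exact_mod_cast hn
  have hcR : (c : ℝ) ≤ w := by exact_mod_cast hcw
  have hwR : (w : ℝ) ≤ n := by exact_mod_cast hwn
  have hc0R : (0 : ℝ) < c := by exact_mod_cast hcpos
  obtain ⟨y, hy⟩ : ∃ y, y = (2 : ℝ) ^ (η₁ * w) := ⟨_, rfl⟩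
  have hy0 : 0 < y := by rw [hy]; positivity
  have hy256 : 256 ≤ y := by
    rw [hy]
    calc (256 : ℝ) = (2 : ℝ) ^ (8 : ℝ) := by norm_num
      _ ≤ (2 : ℝ) ^ (η₁ * w) := by
        apply Real.rpow_le_rpow_of_exponent_le (by norm_num)
        have : η₁ * c ≤ η₁ * w := mul_le_mul_of_nonneg_left hcR hη₁.le
        linarith
  have hy4 : y ^ 4 = (2 : ℝ) ^ (4 * η₁ * w) := by
    rw [hy, ← Real.rpow_natCast, ← Real.rpow_mul (by norm_num)]
    congr 1
    push_cast
    ring
  have hW : y ^ 4 ≤ (2 : ℝ) ^ w := by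
    rw [hy4, ← Real.rpow_natCast]
    apply Real.rpow_le_rpow_of_exponent_le (by norm_num)
    have : (0 : ℝ) ≤ w := by positivity
    nlinarith
  have hnℓ : (n : ℝ) ≤ (2 : ℝ) ^ ((w : ℝ) / c) := by
    have h2 : n < 2 ^ (Nat.log 2 n + 1) := Nat.lt_pow_succ_log_self (by norm_num) n
    have h3 : (n : ℝ) ≤ (2 : ℝ) ^ (Nat.log 2 n + 1) := by exact_mod_cast h2.le
    refine h3.trans ?_
    rw [← Real.rpow_natCast]
    apply Real.rpow_le_rpow_of_exponent_le (by norm_num)
    rw [le_div_iff₀ hc0R]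
    have : ((c * (Nat.log 2 n + 1) : ℕ) : ℝ) ≤ w := by exact_mod_cast hw
    push_cast at this ⊢
    linarith
  have hM0 : (0 : ℝ) < ((n : ℝ) * 2 ^ w) ^ (1 + η₁ / 4) := by positivity
  have hM : ((n : ℝ) * 2 ^ w) ^ (1 + η₁ / 4) ≤ (2 : ℝ) ^ w * y := by
    have h2 : (n : ℝ) * 2 ^ w ≤ (2 : ℝ) ^ ((w : ℝ) / c + w) := by
      rw [Real.rpow_add (by norm_num), Real.rpow_natCast]
      exact mul_le_mul_of_nonneg_right hnℓ (by positivity)
    calc ((n : ℝ) * 2 ^ w) ^ (1 + η₁ / 4) ≤ ((2 : ℝ) ^ ((w : ℝ) / c + w)) ^ (1 + η₁ / 4) :=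
          Real.rpow_le_rpow (by positivity) h2 (by positivity)
      _ = (2 : ℝ) ^ (((w : ℝ) / c + w) * (1 + η₁ / 4)) := by
          rw [← Real.rpow_mul (by norm_num)]
      _ ≤ (2 : ℝ) ^ (w + η₁ * w) := by
          apply Real.rpow_le_rpow_of_exponent_le (by norm_num)
          have h3 : (w : ℝ) / c ≤ w * (η₁ / 8) := by
            rw [div_le_iff₀ hc0R]
            have : (0 : ℝ) ≤ w := by positivity
            have h4 : (w : ℝ) * 8 ≤ w * (η₁ * c) := mul_le_mul_of_nonneg_left hc1 this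
            linarith
          have hw0 : (0 : ℝ) ≤ w := by positivity
          have h5 : (w : ℝ) / c * (1 + η₁ / 4) ≤ w * (η₁ / 8) * 2 := by
            apply mul_le_mul h3 (by linarith) (by positivity) (by positivity)
          have h6 : ((w : ℝ) / c + w) * (1 + η₁ / 4)
              = (w : ℝ) / c * (1 + η₁ / 4) + w + w * η₁ / 4 := by ring
          rw [h6]
          nlinarith
      _ = (2 : ℝ) ^ w * y := by
          rw [Real.rpow_add (by norm_num), Real.rpow_natCast, hy]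
  have hρ : ((n - (n / R + 1) : ℕ) : ℝ) ^ w * y ^ 4 ≤ (n : ℝ) ^ w := by
    have h2 : ((n - (n / R + 1) : ℕ) : ℝ) ≤ n * (2 : ℝ) ^ (-(1 / (R : ℝ))) := by
      have h3 : (n : ℝ) / R ≤ ((n / R + 1 : ℕ) : ℝ) := by
        rw [div_le_iff₀ hR0]
        have := Nat.lt_div_mul_add (a := n) hRpos
        have h4 : n ≤ (n / R + 1) * R := by rw [add_mul, one_mul]; omega
        exact_mod_cast h4
      have h4 : ((n - (n / R + 1) : ℕ) : ℝ) ≤ n * (1 - 1 / R) := by
        rcases le_total (n / R + 1) n with h5 | h5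
        · rw [Nat.cast_sub h5]
          have : (n : ℝ) * (1 - 1 / R) = n - n / R := by ring
          linarith
        · rw [Nat.sub_eq_zero_of_le h5]
          push_cast
          apply mul_nonneg hnR.le
          rw [sub_nonneg, div_le_one hR0]
          exact hR1
      refine h4.trans (mul_le_mul_of_nonneg_left ?_ hnR.le)
      have h5 : (2 : ℝ) ^ (-(1 / (R : ℝ))) = Real.exp (-(1 / (R : ℝ)) * Real.log 2) := by
        rw [Real.rpow_def_of_pos (by norm_num), mul_comm]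
      rw [h5]
      have h6 := Real.add_one_le_exp (-(1 / (R : ℝ)) * Real.log 2)
      have h7 : Real.log 2 ≤ 1 := by linarith [Real.log_two_lt_d9]
      have h8 : (1 / (R : ℝ)) * Real.log 2 ≤ 1 / R * 1 :=
        mul_le_mul_of_nonneg_left h7 (by positivity)
      linarith
    calc ((n - (n / R + 1) : ℕ) : ℝ) ^ w * y ^ 4
        ≤ (n * (2 : ℝ) ^ (-(1 / (R : ℝ)))) ^ w * y ^ 4 := by
          apply mul_le_mul_of_nonneg_right _ (by positivity)
          exact pow_le_pow_left₀ (by positivity) h2 _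
      _ = (n : ℝ) ^ w * ((2 : ℝ) ^ (-(1 / (R : ℝ)) * w) * (2 : ℝ) ^ (4 * η₁ * w)) := by
          have e5 : (2 : ℝ) ^ (-(1 / (R : ℝ)) * w) = ((2 : ℝ) ^ (-(1 / (R : ℝ)))) ^ w := by
            rw [Real.rpow_mul (by norm_num), Real.rpow_natCast]
          rw [mul_pow, hy4, e5]
          ring
      _ ≤ (n : ℝ) ^ w * 1 := by
          apply mul_le_mul_of_nonneg_left _ (by positivity)
          rw [← Real.rpow_add (by norm_num)]
          rw [← Real.rpow_zero 2]
          apply Real.rpow_le_rpow_of_exponent_le (by norm_num)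
          have hw0 : (0 : ℝ) ≤ w := by positivity
          have : (4 * η₁ - 1 / R) * w ≤ 0 := mul_nonpos_of_nonpos_of_nonneg (by linarith) hw0
          linarith
      _ = _ := mul_one _
  have hcount := query_count hy256 hW hn hM0 hM (fun z => by convert ball_card hk hRpos hkR z)
    hρ h h0 h1
  have hcount' : ((univ.filter fun z : Fin n → Bool =>
      ¬ |mean (fun _ => True) h - mean (Satisfies z) h| ≤
        tol (((n : ℝ) * 2 ^ w) ^ (1 + η₁ / 4)) (mean (Satisfies z) h)).card : ℝ) ≤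
      2 * (⌈40 * y ^ 2⌉₊ * ⌊(2 : ℝ) ^ (ε / 4 * n)⌋₊) := by exact_mod_cast hcount
  refine hcount'.trans ?_
  have h2 : (⌈40 * y ^ 2⌉₊ : ℝ) ≤ 41 * y ^ 2 := by
    have := (Nat.ceil_lt_add_one (show 0 ≤ 40 * y ^ 2 by positivity)).le
    nlinarith
  have h3 : (⌊(2 : ℝ) ^ (ε / 4 * n)⌋₊ : ℝ) ≤ (2 : ℝ) ^ (ε / 4 * n) := Nat.floor_le (by positivity)
  have h4 : (2 : ℝ) * (41 * y ^ 2) ≤ (2 : ℝ) ^ (3 * ε / 4 * n) := by
    have h5 : y ^ 2 ≤ (2 : ℝ) ^ (ε / 4 * n) := by
      rw [hy, ← Real.rpow_natCast, ← Real.rpow_mul (by norm_num)]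
      apply Real.rpow_le_rpow_of_exponent_le (by norm_num)
      push_cast
      have h6 : η₁ * w ≤ ε / 8 * n := mul_le_mul (by linarith) hwR (by positivity) (by positivity)
      linarith
    have h6 : (82 : ℝ) ≤ (2 : ℝ) ^ (ε / 2 * n) := by
      calc (82 : ℝ) ≤ (2 : ℝ) ^ (7 : ℝ) := by norm_num
        _ ≤ _ := by
          apply Real.rpow_le_rpow_of_exponent_le (by norm_num)
          have : ε * c ≤ ε * n := mul_le_mul_of_nonneg_left (hcR.trans hwR) hε.le
          linarith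
    calc (2 : ℝ) * (41 * y ^ 2) = 82 * y ^ 2 := by ring
      _ ≤ (2 : ℝ) ^ (ε / 2 * n) * (2 : ℝ) ^ (ε / 4 * n) :=
          mul_le_mul h6 h5 (by positivity) (by positivity)
      _ = (2 : ℝ) ^ (3 * ε / 4 * n) := by
          rw [← Real.rpow_add (by norm_num)]; congr 1; ring
  calc (2 : ℝ) * (⌈40 * y ^ 2⌉₊ * ⌊(2 : ℝ) ^ (ε / 4 * n)⌋₊)
      ≤ 2 * (41 * y ^ 2 * (2 : ℝ) ^ (ε / 4 * n)) := by
        apply mul_le_mul_of_nonneg_left _ (by norm_num)
        exact mul_le_mul h2 h3 (by positivity) (by positivity)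
    _ = (2 * (41 * y ^ 2)) * (2 : ℝ) ^ (ε / 4 * n) := by ring
    _ ≤ (2 : ℝ) ^ (3 * ε / 4 * n) * (2 : ℝ) ^ (ε / 4 * n) :=
        mul_le_mul_of_nonneg_right h4 (by positivity)
    _ = (2 : ℝ) ^ (ε * n) := by
        rw [← Real.rpow_add (by norm_num)]; congr 1; ring

open Classical in
/-- the lower bound -/
theorem sq_main (ε : ℝ) (hε : 0 < ε) : ∃ η : ℝ, 0 < η ∧ ∃ c : ℕ, 0 < c ∧ ∀ n w : ℕ,
    c * (Nat.log 2 n + 1) ≤ w → w ≤ n →
    ∀ ask : List ℝ → WClause n w → ℝ, (∀ l C, 0 ≤ ask l C ∧ ask l C ≤ 1) → ∀ q : ℕ,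
      ∃ l : List ℝ, l.length = q ∧
        Answers (((n : ℝ) * 2 ^ w) ^ (1 + η)) (fun _ => True) ask l ∧
        ((univ.filter fun z : Fin n → Bool =>
          ¬ Answers (((n : ℝ) * 2 ^ w) ^ (1 + η)) (Satisfies z) ask l).card : ℝ) ≤
          q * (2 : ℝ) ^ (ε * n) := by
  obtain ⟨η, hη, c, hc, H⟩ := sq_query ε hε
  exact ⟨η, hη, c, hc, fun n w hw hwn ask hask q => adaptive (H n w hw hwn) ask hask q⟩

end Pool.Agent.Y639.SQ
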