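import Mathlib
import Pool.Agent.Y639.SQ.Final

/-!
Exhaustive search is a statistical algorithm with `2 ^ n` queries.
-/

set_option autoImplicit false

namespace Pool.Agent.Y639.SQ

open Finset

variable {n w : ℕ}

lemma Answers.get {M : ℝ} {D : WClause n w → Prop} {ask : List ℝ → WClause n w → ℝ} {l : List ℝ}
    (h : Answers M D ask l) : ∀ i < l.length,
      |l.getD i 0 - mean D (ask (l.take i))| ≤ tol M (mean D (ask (l.take i))) := by
  induction h with
  | nil => intro i hi; simp at hi
  | snoc l a _ h2 ih =>
    intro i hi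
    rw [List.length_append, List.length_singleton] at hi
    rcases Nat.lt_succ_iff_lt_or_eq.1 hi with h3 | h3
    · rw [List.getD_append _ _ _ _ h3, List.take_append_of_le_length h3.le]
      exact ih i h3
    · subst h3
      rw [List.getD_append_right _ _ _ _ le_rfl, List.take_left' rfl]
      have e1 : [a].getD (l.length - l.length) 0 = a := by simp
      rw [e1]
      exact h2

open Classical in
/-- the query which asks how often `z` is falsified -/
noncomputable def falsQuery (z : Fin n → Bool) (C : WClause n w) : ℝ :=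
  if Satisfies z C then 0 else 1

lemma mean_sat_fals (z : Fin n → Bool) : mean (Satisfies z) (falsQuery (w := w) z) = 0 := by
  classical
  unfold mean
  rw [sum_eq_zero, zero_div]
  intro C hC
  rw [mem_filter] at hC
  unfold falsQuery
  rw [if_pos hC.2]

lemma mean_true_fals (hn : 0 < n) (z : Fin n → Bool) :
    mean (fun _ => True) (falsQuery (w := w) z) = 1 / (2 : ℝ) ^ w := by
  classical
  rw [mean_true]
  have h1 : ∑ C, falsQuery (w := w) z C = (n : ℝ) ^ w := by
    unfold falsQuery
    have h2 : ∀ C : WClause n w, (if Satisfies z C then (0 : ℝ) else 1) =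
        if ¬ Satisfies z C then 1 else 0 := by
      intro C
      by_cases h : Satisfies z C <;> simp [h]
    rw [sum_congr rfl fun C _ => h2 C, ← sum_filter, sum_const, card_falsified]
    simp
  rw [h1]
  have : (0 : ℝ) < n := by exact_mod_cast hn
  field_simp

/-- Exhaustive search. -/
theorem sq_upper (n w : ℕ) (hn : 0 < n) (M : ℝ) (hM : 8 * (2 : ℝ) ^ w ≤ M) :
    ∃ (ask : List ℝ → WClause n w → ℝ) (accept : List ℝ → Prop),
      (∀ l C, 0 ≤ ask l C ∧ ask l C ≤ 1) ∧
      ∀ l : List ℝ, l.length = 2 ^ n →
        (Answers M (fun _ => True) ask l → ¬ accept l) ∧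
        ∀ z, Answers M (Satisfies z) ask l → accept l := by
  classical
  have hc1 : Fintype.card (Fin n → Bool) = 2 ^ n := by simp
  let e : (Fin n → Bool) ≃ Fin (2 ^ n) := Fintype.equivFinOfCardEq hc1
  refine ⟨fun l => if h : l.length < 2 ^ n then falsQuery (e.symm ⟨l.length, h⟩) else fun _ => 0,
    fun l => ∃ i < 2 ^ n, l.getD i 0 ≤ 1 / M, ?_, ?_⟩
  · intro l C
    simp only
    split_ifs with h
    · unfold falsQuery
      split_ifs <;> norm_num
    · norm_num
  intro l hl
  have htake : ∀ i : ℕ, i < 2 ^ n → (l.take i).length = i := by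
    intro i hi
    rw [List.length_take, hl]
    exact min_eq_left hi.le
  have hW : (0 : ℝ) < (2 : ℝ) ^ w := by positivity
  have hM0 : 0 < M := by linarith
  constructor
  · rintro h ⟨i, hi, hle⟩
    have h2 := h.get i (by omega)
    simp only [htake i hi, dif_pos hi] at h2
    rw [mean_true_fals hn] at h2
    obtain ⟨p, hp⟩ : ∃ p, p = 1 / (2 : ℝ) ^ w := ⟨_, rfl⟩
    rw [← hp] at h2
    have hp0 : 0 < p := by rw [hp]; positivity
    have hMp : 8 ≤ M * p := by
      rw [hp]
      rw [mul_one_div, le_div_iff₀ hW]
      exact hM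
    have h3 : 1 / M ≤ p / 8 := by
      rw [div_le_div_iff₀ hM0 (by norm_num)]
      linarith
    have h4 : Real.sqrt (p * (1 - p) / M) ≤ p / 2 := by
      rw [Real.sqrt_le_left (by positivity)]
      rw [div_le_iff₀ hM0]
      have h5 : p * (1 - p) ≤ p := by nlinarith
      have h6 : p ≤ p * (M * p) / 4 := by nlinarith
      calc p * (1 - p) ≤ p := h5
        _ ≤ p * (M * p) / 4 := h6
        _ = (p / 2) ^ 2 * M := by ring
    have h5 : tol M p ≤ p / 2 := by
      unfold tol
      apply max_le _ h4
      linarith
    have h6 := (abs_le.1 (h2.trans h5)).1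
    linarith
  · intro z h
    refine ⟨(e z).1, (e z).2, ?_⟩
    have h2 := h.get (e z).1 (by rw [hl]; exact (e z).2)
    simp only [htake (e z).1 (e z).2, dif_pos (e z).2] at h2
    have e1 : e.symm ⟨(e z).1, (e z).2⟩ = z := by simp
    rw [e1, mean_sat_fals] at h2
    have h3 : tol M 0 = 1 / M := by
      unfold tol
      rw [zero_mul, zero_div, Real.sqrt_zero]
      exact max_eq_left (by positivity)
    rw [h3, sub_zero] at h2
    exact (abs_le.1 h2).2

end Pool.Agent.Y639.SQ
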